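import Pool.Agent.Helper71.HV.Sub

/-!
# Row V2R of the sheet HV: part PE (pairs of electrons)
-/

set_option autoImplicit false

namespace Pool.Agent.Helper47.HV

open MeasureTheory Filter Pool.Agent.Helper95.PW Pool.Agent.Helper95.LN Pool.Agent.Helper95.CF
open Pool.Agent.Helper95.HV

theorem nr_nn (y : R3) : 0 ≤ nr y := Real.sqrt_nonneg _

theorem abs_le_nr (y : R3) (i : Fin 3) : |y i| ≤ nr y := by
  rw [nr]
  refine Real.abs_le_sqrt ?_
  have h0 := sq_nonneg (y 0)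
  have h1 := sq_nonneg (y 1)
  have h2 := sq_nonneg (y 2)
  fin_cases i
  · show y 0 ^ 2 ≤ _
    linarith
  · show y 1 ^ 2 ≤ _
    linarith
  · show y 2 ^ 2 ≤ _
    linarith

theorem pd_sm {g : R3 → ℝ} (hg : ContDiff ℝ (⊤ : ℕ∞) g) (i : Fin 3) :
    ContDiff ℝ (⊤ : ℕ∞) (pd i g) := by
  have h1 : ContDiff ℝ (⊤ : ℕ∞) (fderiv ℝ g) := hg.fderiv_right (by simp)
  exact h1.clm_apply contDiff_const

theorem mvt {h : R3 → ℝ} (hh : ContDiff ℝ (⊤ : ℕ∞) h) (B : ℝ) (hB : ∀ i y, |pd i h y| ≤ B)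
    (y y' : R3) : |h y - h y'| ≤ 3 * B * nr (y - y') := by
  have hB0 : 0 ≤ B := (abs_nonneg _).trans (hB 0 y)
  have hn : ∀ x, ‖fderiv ℝ h x‖ ≤ 3 * B := by
    intro x
    refine ContinuousLinearMap.opNorm_le_bound _ (by positivity) fun v => ?_
    have h1 : fderiv ℝ h x v = ∑ i, v i * pd i h x := by
      conv_lhs => rw [pi_eq_sum_univ' v]
      rw [map_sum]
      refine Finset.sum_congr rfl fun i _ => ?_
      rw [map_smul, smul_eq_mul]
      congr 1
    rw [h1]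
    refine (norm_sum_le _ _).trans ?_
    have h2 : ∀ i ∈ Finset.univ, ‖v i * pd i h x‖ ≤ ‖v‖ * B := by
      intro i _
      rw [norm_mul]
      exact mul_le_mul (norm_le_pi_norm v i) (hB i x) (norm_nonneg _) (norm_nonneg _)
    refine (Finset.sum_le_card_nsmul _ _ _ h2).trans (le_of_eq ?_)
    rw [Finset.card_univ, Fintype.card_fin, nsmul_eq_mul]
    push_cast
    ring
  have hd : Differentiable ℝ h := hh.differentiable (by simp)
  have h1 := Convex.norm_image_sub_le_of_norm_fderiv_le (𝕜 := ℝ) (s := Set.univ)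
    (fun x _ => hd x) (fun x _ => hn x) convex_univ (Set.mem_univ y') (Set.mem_univ y)
  rw [Real.norm_eq_abs] at h1
  refine h1.trans (mul_le_mul_of_nonneg_left ?_ (by positivity))
  refine (pi_norm_le_iff_of_nonneg (nr_nn _)).2 fun i => ?_
  exact abs_le_nr (y - y') i

theorem sum3 (f : Fin 3 → ℝ) (B : ℝ) (h : ∀ i, |f i| ≤ B) : |∑ i, f i| ≤ 3 * B := by
  refine (Finset.abs_sum_le_sum_abs _ _).trans ?_
  refine (Finset.sum_le_card_nsmul _ _ _ (fun i _ => h i)).trans (le_of_eq ?_)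
  rw [Finset.card_univ, Fintype.card_fin, nsmul_eq_mul]
  push_cast
  ring

theorem Tq_bd (ξ v w : R3) (a b : ℝ) (ha : 0 ≤ a) (hb : 0 ≤ b) (hv : ∀ m, |v m| ≤ a)
    (hw : ∀ m, |w m| ≤ b) (hξ : 0 < nr ξ) : |Tq ξ v w| ≤ 30 * (a * b) / nr ξ ^ 3 := by
  have h1 : |∑ m, v m * ξ m| ≤ 3 * (a * nr ξ) := by
    refine sum3 _ _ fun m => ?_
    rw [abs_mul]
    exact mul_le_mul (hv m) (abs_le_nr ξ m) (abs_nonneg _) ha
  have h2 : |∑ m, w m * ξ m| ≤ 3 * (b * nr ξ) := by
    refine sum3 _ _ fun m => ?_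
    rw [abs_mul]
    exact mul_le_mul (hw m) (abs_le_nr ξ m) (abs_nonneg _) hb
  have h3 : |∑ m, v m * w m| ≤ 3 * (a * b) := by
    refine sum3 _ _ fun m => ?_
    rw [abs_mul]
    exact mul_le_mul (hv m) (hw m) (abs_nonneg _) ha
  rw [Tq]
  refine (abs_sub _ _).trans ?_
  rw [abs_div, abs_div, abs_of_pos (pow_pos hξ 5), abs_of_pos (pow_pos hξ 3), abs_mul, abs_mul,
    abs_of_pos (by norm_num : (0 : ℝ) < 3)]
  have h4 : 3 * |∑ m, v m * ξ m| * |∑ m, w m * ξ m| ≤
      3 * (3 * (a * nr ξ)) * (3 * (b * nr ξ)) := by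
    refine mul_le_mul (mul_le_mul_of_nonneg_left h1 (by norm_num)) h2 (abs_nonneg _) ?_
    positivity
  have h5 : 3 * |∑ m, v m * ξ m| * |∑ m, w m * ξ m| / nr ξ ^ 5 ≤
      27 * (a * b) / nr ξ ^ 3 := by
    refine (div_le_div_of_nonneg_right h4 (pow_pos hξ 5).le).trans (le_of_eq ?_)
    field_simp
    ring
  have h6 := div_le_div_of_nonneg_right h3 (pow_pos hξ 3).le
  refine (add_le_add h5 h6).trans (le_of_eq ?_)
  ring

/-- part PE of row V2R -/
theorem PE : Pool.Agent.Helper71.HV.ST_PE := by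
  refine ⟨1000, by norm_num, ?_⟩
  intro K L r G A y y' hK hL hr hr1 hG hA hne
  have hρ : 0 < nr (y - y') := lt_of_le_of_ne (nr_nn _) (Ne.symm hne)
  have hK0 : 0 < K := by linarith
  have hL0 : 0 < L := by linarith
  set ρ := nr (y - y') with hρd
  have g1 : ∀ i, |(gv G y - gv G y') i| ≤ 3 * (K / L) * ρ := fun i =>
    mvt (pd_sm hG.sm i) (K / L) (fun l x => hG.d2 l i x) y y'
  have g2 : ∀ i, |(gv A y - gv A y') i| ≤ 3 * (K / r) * ρ := fun i =>
    mvt (pd_sm hA.sm i) (K / r) (fun l x => hA.d2 l i x) y y'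
  have g3 : ∀ i, |gq G y i - gq G y' i| ≤ 18 * (K ^ 2 / L ^ 2) * ρ := by
    intro i
    have h1 : gq G y i - gq G y' i = ∑ l, ((pd l (pd i G) y - pd l (pd i G) y') * pd l G y +
        pd l (pd i G) y' * (pd l G y - pd l G y')) := by
      rw [gq, gq, ← Finset.sum_sub_distrib]
      refine Finset.sum_congr rfl fun l _ => ?_
      ring
    rw [h1]
    have h2 : ∀ l, |(pd l (pd i G) y - pd l (pd i G) y') * pd l G y +
        pd l (pd i G) y' * (pd l G y - pd l G y')| ≤ 6 * (K ^ 2 / L ^ 2) * ρ := by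
      intro l
      have h3 := mvt (pd_sm (pd_sm hG.sm i) l) (K / L ^ 2) (fun m x => hG.d3 m l i x) y y'
      have h4 := hG.d1 l y
      have h5 := hG.d2 l i y'
      have h6 := mvt (pd_sm hG.sm l) (K / L) (fun m x => hG.d2 m l x) y y'
      refine (abs_add_le _ _).trans ?_
      rw [abs_mul, abs_mul]
      have h7 : |pd l (pd i G) y - pd l (pd i G) y'| * |pd l G y| ≤
          3 * (K / L ^ 2) * nr (y - y') * K :=
        mul_le_mul h3 h4 (abs_nonneg _) (by positivity)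
      have h8 : |pd l (pd i G) y'| * |pd l G y - pd l G y'| ≤
          K / L * (3 * (K / L) * nr (y - y')) :=
        mul_le_mul h5 h6 (abs_nonneg _) (by positivity)
      refine (add_le_add h7 h8).trans (le_of_eq ?_)
      rw [← hρd]
      field_simp
      ring
    refine (sum3 _ _ h2).trans (le_of_eq ?_)
    ring
  have hLr : K ^ 2 / L ^ 2 ≤ K ^ 2 / (r * L) := by
    refine div_le_div_of_nonneg_left (by positivity) (by positivity) ?_
    nlinarith
  have t1 : |Tq (y - y') (gv G y - gv G y') (gv G y - gv G y')| ≤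
      270 * (K ^ 2 / (r * L)) * (1 / ρ) := by
    refine (Tq_bd _ _ _ _ _ (by positivity) (by positivity) g1 g1 hρ).trans ?_
    have h1 : 30 * (3 * (K / L) * ρ * (3 * (K / L) * ρ)) / ρ ^ 3 =
        270 * (K ^ 2 / L ^ 2) * (1 / ρ) := by
      field_simp
      ring
    rw [← hρd, h1]
    exact mul_le_mul_of_nonneg_right (mul_le_mul_of_nonneg_left hLr (by norm_num))
      (by positivity)
  have t2 : |Tq (y - y') (gv G y - gv G y') (gv A y - gv A y')| ≤
      270 * (K ^ 2 / (r * L)) * (1 / ρ) := by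
    refine (Tq_bd _ _ _ _ _ (by positivity) (by positivity) g1 g2 hρ).trans (le_of_eq ?_)
    rw [← hρd]
    field_simp
    ring
  have t3 : |(∑ i, (gq G y i - gq G y' i) * (y i - y' i)) / ρ ^ 3| ≤
      54 * (K ^ 2 / (r * L)) * (1 / ρ) := by
    have h1 : |∑ i, (gq G y i - gq G y' i) * (y i - y' i)| ≤
        3 * (18 * (K ^ 2 / L ^ 2) * ρ * ρ) := by
      refine sum3 _ _ fun i => ?_
      rw [abs_mul]
      exact mul_le_mul (g3 i) (abs_le_nr (y - y') i) (abs_nonneg _) (by positivity)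
    rw [abs_div, abs_of_pos (pow_pos hρ 3)]
    refine (div_le_div_of_nonneg_right h1 (pow_pos hρ 3).le).trans ?_
    have h2 : 3 * (18 * (K ^ 2 / L ^ 2) * ρ * ρ) / ρ ^ 3 =
        54 * (K ^ 2 / L ^ 2) * (1 / ρ) := by
      field_simp
      ring
    rw [h2]
    exact mul_le_mul_of_nonneg_right (mul_le_mul_of_nonneg_left hLr (by norm_num))
      (by positivity)
  have hp : 0 ≤ K ^ 2 / (r * L) * (1 / ρ) := by positivity
  have he : 1000 * K ^ 2 / (r * L) * (1 / ρ) = 1000 * (K ^ 2 / (r * L) * (1 / ρ)) := by ring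
  rw [he]
  rw [mul_assoc] at t1 t2 t3
  linarith

end Pool.Agent.Helper47.HV
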